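import Pool.Agent.H740R3.BQStmts

/-!
# Project H740-BQ, task T9: a nonzero symmetric form for which `T` is symmetric makes `T ⊕ T`
non-cyclic.
-/

set_option autoImplicit false
set_option maxHeartbeats 4000000
set_option synthInstance.maxHeartbeats 400000

namespace Pool.Agent.H154R5.BQ

open Pool.Agent.H740R3.BQ

universe u

theorem t9 : T9.{u} := by
  intro X _ _ T b hs hT hb
  rintro ⟨x, hx⟩
  apply hb
  -- powers of `T` are symmetric for `b`
  have hpow : ∀ (n : ℕ) (w z : X), b ((T ^ n) w) z = b w ((T ^ n) z) := by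
    intro n
    induction n with
    | zero => intro w z; simp
    | succ n ih =>
      intro w z
      rw [pow_succ]
      simp only [ContinuousLinearMap.mul_apply]
      rw [ih, hT, ← ContinuousLinearMap.mul_apply, ← ContinuousLinearMap.mul_apply,
        ← pow_succ', ← pow_succ]
  have horb : ∀ n : ℕ, ((T.prodMap T) ^ n) x = ((T ^ n) x.1, (T ^ n) x.2) := by
    intro n
    induction n with
    | zero => simp
    | succ n ih =>
      rw [pow_succ', pow_succ']
      simp only [ContinuousLinearMap.mul_apply]
      rw [ih]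
      rfl
  -- the functional `φ (p, q) = b p v - b q u`
  have hφ : (((b.flip x.2).comp (ContinuousLinearMap.fst ℂ X X)) -
      ((b.flip x.1).comp (ContinuousLinearMap.snd ℂ X X)) : X × X →L[ℂ] ℂ) = 0 := by
    apply ContinuousLinearMap.ext_on hx
    rintro _ ⟨n, rfl⟩
    simp only [horb]
    simp only [ContinuousLinearMap.sub_apply, ContinuousLinearMap.comp_apply,
      ContinuousLinearMap.flip_apply, ContinuousLinearMap.zero_apply,
      ContinuousLinearMap.coe_fst', ContinuousLinearMap.coe_snd']
    rw [hpow n x.2 x.1, hs x.2 ((T ^ n) x.1), sub_self]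
  have hu : ∀ q : X, b q x.1 = 0 := by
    intro q
    have h := congrArg (fun f : X × X →L[ℂ] ℂ => f (0, q)) hφ
    simpa using h
  -- the map `(p, q) ↦ b p`
  have hψ : (b.comp (ContinuousLinearMap.fst ℂ X X)) = 0 := by
    apply ContinuousLinearMap.ext_on hx
    rintro _ ⟨n, rfl⟩
    simp only [horb]
    ext w
    simp only [ContinuousLinearMap.comp_apply, ContinuousLinearMap.coe_fst',
      ContinuousLinearMap.zero_apply]
    rw [hpow, hs, hu]
  ext p w
  have h := congrArg (fun f : X × X →L[ℂ] (X →L[ℂ] ℂ) => f (p, 0) w) hψ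
  simpa using h

end Pool.Agent.H154R5.BQ

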