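import Mathlib
import Pool.Agent.H242R3.ES.Stmts

/-!
Task ES-L2 of project H242-ES: the sign of the ridge coefficients.
-/

set_option autoImplicit false

open Finset Matrix
open scoped Classical

namespace Pool.Agent.H154R5.ESL2

open Pool.Agent.H242R3.ES

section base

variable {ι : Type} {r : Finset ι} {F : ι → ℝ}

/-- the vector `P⁻¹ 1` -/
noncomputable def uu (r : Finset ι) (F : ι → ℝ) : r → ℝ := (GM r F)⁻¹ *ᵥ (fun _ => 1)

lemma inv_mul_eq (hP : (GM r F).PosDef) (x : r → ℝ) : GM r F *ᵥ ((GM r F)⁻¹ *ᵥ x) = x := by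
  rw [Matrix.mulVec_mulVec, Matrix.mul_nonsing_inv _ ((Matrix.isUnit_iff_isUnit_det _).1 hP.isUnit),
    Matrix.one_mulVec]

lemma inv_mul_eq' (hP : (GM r F).PosDef) (x : r → ℝ) : (GM r F)⁻¹ *ᵥ (GM r F *ᵥ x) = x := by
  rw [Matrix.mulVec_mulVec, Matrix.nonsing_inv_mul _ ((Matrix.isUnit_iff_isUnit_det _).1 hP.isUnit),
    Matrix.one_mulVec]

lemma gm_symm (F : ι → ℝ) (i k : ι) : gm F i k = gm F k i := by
  unfold gm
  by_cases h : i = k
  · subst h; rfl
  · rw [if_neg h, if_neg (fun h' => h h'.symm)]; ring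

lemma GM_symm (r : Finset ι) (F : ι → ℝ) : (GM r F)ᵀ = GM r F := by
  ext i k
  exact gm_symm F k i

/-- symmetry of the form -/
lemma dot_symm (x y : r → ℝ) : x ⬝ᵥ (GM r F *ᵥ y) = (GM r F *ᵥ x) ⬝ᵥ y := by
  rw [Matrix.dotProduct_mulVec, ← Matrix.mulVec_transpose, GM_symm]

lemma row (r : Finset ι) (F : ι → ℝ) (x : r → ℝ) (i : r) :
    (GM r F *ᵥ x) i = (F i * (∑ k, x k) + (∑ k : r, F k * x k) - (∑ k, x k) + x i) / 2 := by
  have h1 : (GM r F *ᵥ x) i = ∑ k : r, gm F i k * x k := rfl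
  rw [h1]
  have h2 : ∀ k : r, gm F i k * x k =
      (F i * x k + F k * x k - x k + (if i = k then x k else 0)) / 2 := by
    intro k
    unfold gm
    by_cases h : i = k
    · subst h
      simp only [if_true]
      ring
    · have h' : (i : ι) ≠ k := fun h' => h (Subtype.ext h')
      rw [if_neg h, if_neg h']
      ring
  rw [Finset.sum_congr rfl fun k _ => h2 k, ← Finset.sum_div, Finset.sum_add_distrib,
    Finset.sum_sub_distrib, Finset.sum_add_distrib, ← Finset.mul_sum]
  congr 2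
  simp

/-- the basic constants -/
lemma consts (hr : r.Nonempty) (hP : (GM r F).PosDef) :
    0 < ∑ i, uu r F i ∧
    (∀ i : r, uu r F i = (∑ k, uu r F k) * ((1 + ∑ k ∈ r, F k) / r.card - F i)) ∧
    (∑ k : r, F k * uu r F k) = 2 + (∑ k, uu r F k) -
      (∑ k, uu r F k) * ((1 + ∑ k ∈ r, F k) / r.card) := by
  have hPu : GM r F *ᵥ uu r F = fun _ => 1 := inv_mul_eq hP _
  set S := ∑ k, uu r F k with hS
  set φ := ∑ k : r, F k * uu r F k with hφ
  have hn : (0 : ℝ) < r.card := by exact_mod_cast hr.card_pos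
  have h1 : ∀ i : r, uu r F i = 2 - φ + S - S * F i := by
    intro i
    have h2 := row r F (uu r F) i
    rw [hPu] at h2
    simp only at h2
    rw [← hS, ← hφ] at h2
    linarith
  have h3 : S = r.card * (2 - φ + S) - S * ∑ k ∈ r, F k := by
    have h4 : S = ∑ i : r, (2 - φ + S - S * F i) := by
      rw [hS]
      exact Finset.sum_congr rfl fun i _ => h1 i
    have h5 : ∑ i : r, (2 - φ + S - S * F i) = r.card * (2 - φ + S) - S * ∑ k ∈ r, F k := by
      rw [Finset.sum_sub_distrib, Finset.sum_const, ← Finset.mul_sum, Finset.card_univ,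
        Fintype.card_coe, nsmul_eq_mul, ← Finset.sum_coe_sort r F]
    rw [← h5]
    exact h4
  have h6 : 2 - φ + S = S * ((1 + ∑ k ∈ r, F k) / r.card) := by
    rw [← mul_div_assoc, eq_div_iff hn.ne']
    linarith
  refine ⟨?_, ?_, ?_⟩
  · have hne : uu r F ≠ 0 := by
      intro h0
      rw [h0, Matrix.mulVec_zero] at hPu
      obtain ⟨a, ha⟩ := hr
      exact zero_ne_one (congrFun hPu ⟨a, ha⟩)
    have h7 := hP.dotProduct_mulVec_pos hne
    rw [hPu] at h7
    have h8 : star (uu r F) ⬝ᵥ (fun _ => (1 : ℝ)) = S := by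
      rw [star_trivial, hS]
      exact Finset.sum_congr rfl fun i _ => mul_one _
    rwa [h8] at h7
  · intro i
    rw [h1 i, mul_sub, ← h6]
  · linarith

end base

section step

variable {ι : Type} {r : Finset ι} {F : ι → ℝ}

/-- the column of the new vertex -/
noncomputable def bb (r : Finset ι) (F : ι → ℝ) (j : ι) : r → ℝ := fun i => gm F i j

/-- the splitting of the index type -/
noncomputable def ee (r : Finset ι) (j : ι) (hj : j ∉ r) : r ⊕ Unit ≃ (insert j r : Finset ι) :=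
  Equiv.ofBijective
    (Sum.elim (fun i => ⟨i, mem_insert_of_mem i.2⟩) (fun _ => ⟨j, mem_insert_self j r⟩)) (by
      constructor
      · rintro (a | a) (b | b) h
        · simp only [Sum.elim_inl, Subtype.mk.injEq] at h
          rw [Subtype.ext h]
        · simp only [Sum.elim_inl, Sum.elim_inr, Subtype.mk.injEq] at h
          exact absurd (h ▸ a.2) hj
        · simp only [Sum.elim_inl, Sum.elim_inr, Subtype.mk.injEq] at h
          exact absurd (h ▸ b.2) hj
        · rfl
      · rintro ⟨x, hx⟩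
        rcases mem_insert.1 hx with h | h
        · exact ⟨Sum.inr (), by simp only [Sum.elim_inr]; exact Subtype.ext h.symm⟩
        · exact ⟨Sum.inl ⟨x, h⟩, rfl⟩)

lemma blocks (j : ι) (hj : j ∉ r) :
    (GM (insert j r) F).submatrix (ee r j hj) (ee r j hj) =
      Matrix.fromBlocks (GM r F) (Matrix.of fun i _ => bb r F j i)
        (Matrix.of fun _ i => bb r F j i) (Matrix.of fun _ _ => F j) := by
  ext a b
  rcases a with a | a <;> rcases b with b | b
  · rfl
  · rfl
  · exact gm_symm F j b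
  · show gm F j j = F j
    unfold gm
    rw [if_pos rfl]
    ring

/-- the Schur complement -/
noncomputable def sg (r : Finset ι) (F : ι → ℝ) (j : ι) : ℝ :=
  F j - bb r F j ⬝ᵥ ((GM r F)⁻¹ *ᵥ bb r F j)

lemma det_eq (hP : (GM r F).PosDef) (j : ι) (hj : j ∉ r) :
    (GM (insert j r) F).det = (GM r F).det * sg r F j := by
  rw [← Matrix.det_submatrix_equiv_self (ee r j hj), blocks j hj]
  have hu : IsUnit (GM r F) := hP.isUnit
  let _ : Invertible (GM r F) := hu.invertible
  rw [Matrix.det_fromBlocks₁₁]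
  congr 1
  rw [Matrix.det_unique]
  show F j - _ = _
  unfold sg
  congr 1
  rw [Matrix.invOf_eq_nonsing_inv, Matrix.mul_assoc]
  rfl

lemma kap_eq (hP : (GM r F).PosDef) (j : ι) (hj : j ∉ r) (hG : (GM (insert j r) F).PosDef) :
    sg r F j * ((GM (insert j r) F)⁻¹ *ᵥ (fun _ => 1)) ⟨j, mem_insert_self j r⟩ =
      1 - bb r F j ⬝ᵥ uu r F := by
  set y := (GM (insert j r) F)⁻¹ *ᵥ (fun _ => (1 : ℝ)) with hy
  have hGy : GM (insert j r) F *ᵥ y = fun _ => 1 := inv_mul_eq hG _
  set yj := y ⟨j, mem_insert_self j r⟩ with hyj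
  let yr : r → ℝ := fun i => y ⟨i, mem_insert_of_mem i.2⟩
  have hsum : ∀ f : ↥(insert j r) → ℝ, ∑ k, f k =
      (∑ i : r, f ⟨i, mem_insert_of_mem i.2⟩) + f ⟨j, mem_insert_self j r⟩ := by
    intro f
    rw [← Equiv.sum_comp (ee r j hj) f, Fintype.sum_sum_type]
    simp only [Finset.univ_unique, Finset.sum_singleton]
    rfl
  have h1 : GM r F *ᵥ yr + yj • bb r F j = fun _ => 1 := by
    funext i
    have h2 := congrFun hGy ⟨i, mem_insert_of_mem i.2⟩
    have h3 : (GM (insert j r) F *ᵥ y) ⟨i, mem_insert_of_mem i.2⟩ =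
        ∑ k : ↥(insert j r), gm F i k * y k := rfl
    rw [h3, hsum] at h2
    have h4 : (GM r F *ᵥ yr) i = ∑ k : r, gm F i k * yr k := rfl
    rw [Pi.add_apply, h4, Pi.smul_apply, smul_eq_mul]
    show _ = (1 : ℝ)
    rw [← h2]
    show _ + yj * gm F i j = _ + gm F i j * yj
    rw [mul_comm yj]
  have h5 : bb r F j ⬝ᵥ yr + F j * yj = 1 := by
    have h2 := congrFun hGy ⟨j, mem_insert_self j r⟩
    have h3 : (GM (insert j r) F *ᵥ y) ⟨j, mem_insert_self j r⟩ =
        ∑ k : ↥(insert j r), gm F j k * y k := rfl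
    rw [h3, hsum] at h2
    have h6 : gm F j j = F j := by
      unfold gm
      rw [if_pos rfl]
      ring
    rw [← h2]
    show (∑ i : r, gm F i j * yr i) + F j * yj = (∑ i : r, gm F j i * yr i) + gm F j j * yj
    rw [h6]
    congr 1
    exact Finset.sum_congr rfl fun i _ => by rw [gm_symm F i j]
  have h7 : yr = uu r F - yj • ((GM r F)⁻¹ *ᵥ bb r F j) := by
    have h8 : GM r F *ᵥ yr = (fun _ => 1) - yj • bb r F j := by
      rw [← h1]; simp
    calc yr = (GM r F)⁻¹ *ᵥ (GM r F *ᵥ yr) := (inv_mul_eq' hP yr).symm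
      _ = _ := by
        rw [h8, Matrix.mulVec_sub, Matrix.mulVec_smul]
        rfl
  rw [h7, dotProduct_sub, dotProduct_smul, smul_eq_mul] at h5
  unfold sg
  linarith

lemma b_eq (hr : r.Nonempty) (hP : (GM r F).PosDef) (j : ι) (hj : j ∉ r) :
    bb r F j = ((((1 + ∑ k ∈ r, F k) / r.card) + F j - 1) / 2) • (fun _ => (1 : ℝ)) -
      (1 / (2 * ∑ k, uu r F k)) • uu r F := by
  obtain ⟨hS, hu, -⟩ := consts hr hP
  funext i
  have hij : (i : ι) ≠ j := fun h => hj (h ▸ i.2)
  rw [Pi.sub_apply, Pi.smul_apply, Pi.smul_apply]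
  show gm F i j = _ • (1 : ℝ) - _ • _
  unfold gm
  rw [if_neg hij, smul_eq_mul, smul_eq_mul, hu i]
  have : (∑ k, uu r F k) ≠ 0 := hS.ne'
  generalize (∑ k, uu r F k) = S at this ⊢
  generalize (1 + ∑ k ∈ r, F k) / (r.card : ℝ) = q
  field_simp
  ring

/-- the two scalar products -/
lemma scal (hr : r.Nonempty) (hP : (GM r F).PosDef) : ∃ C : ℝ, ∀ j : ι, j ∉ r →
    1 - bb r F j ⬝ᵥ uu r F = (∑ k, uu r F k) / 2 * ((1 + ∑ k ∈ r, F k) / r.card - F j) ∧
    sg r F j = C - (∑ k, uu r F k) / 4 * ((1 + ∑ k ∈ r, F k) / r.card - F j) ^ 2 := by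
  obtain ⟨hS, hu, hφ⟩ := consts hr hP
  set S := ∑ k, uu r F k with hSdef
  set q := (1 + ∑ k ∈ r, F k) / (r.card : ℝ) with hq
  have hPu : GM r F *ᵥ uu r F = fun _ => 1 := inv_mul_eq hP _
  have hS0 : S ≠ 0 := hS.ne'
  -- 1 . u = S
  have h1u : (fun _ => (1 : ℝ)) ⬝ᵥ uu r F = S := by
    rw [hSdef]
    exact Finset.sum_congr rfl fun i _ => one_mul _
  -- u . u
  have huu : uu r F ⬝ᵥ uu r F = S * (2 * q * S - 2 - S) := by
    have h2 : (∑ k : r, F k * uu r F k) = q * S - (uu r F ⬝ᵥ uu r F) / S := by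
      have h3 : ∀ k : r, F k * uu r F k = q * uu r F k - (uu r F k * uu r F k) / S := by
        intro k
        have h4 : F k = q - uu r F k / S := by
          rw [hu k]
          field_simp
          ring
        rw [h4]
        ring
      rw [Finset.sum_congr rfl fun k _ => h3 k, Finset.sum_sub_distrib, ← Finset.mul_sum,
        ← Finset.sum_div]
      rfl
    rw [hφ] at h2
    field_simp at h2
    linarith
  set v := (GM r F)⁻¹ *ᵥ uu r F with hv
  have hPv : GM r F *ᵥ v = uu r F := inv_mul_eq hP _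
  have h1v : (fun _ => (1 : ℝ)) ⬝ᵥ v = uu r F ⬝ᵥ uu r F := by
    rw [← hPu, ← dot_symm, hPv]
  refine ⟨S / 4 * q ^ 2 - ((q - 1) ^ 2 * S / 4 - (q - 1) * (uu r F ⬝ᵥ uu r F) / (2 * S) +
      (uu r F ⬝ᵥ v) / (4 * S ^ 2)), ?_⟩
  intro j hj
  have hb := b_eq hr hP j hj
  rw [← hq, ← hSdef] at hb
  refine ⟨?_, ?_⟩
  · rw [hb, sub_dotProduct, smul_dotProduct, smul_dotProduct, h1u, huu, smul_eq_mul, smul_eq_mul]
    field_simp
    ring
  · unfold sg
    rw [hb, Matrix.mulVec_sub, Matrix.mulVec_smul, Matrix.mulVec_smul]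
    have h5 : (GM r F)⁻¹ *ᵥ (fun _ => (1 : ℝ)) = uu r F := rfl
    rw [h5, ← hv, sub_dotProduct, dotProduct_sub, dotProduct_sub, smul_dotProduct, smul_dotProduct,
      smul_dotProduct, smul_dotProduct, dotProduct_smul, dotProduct_smul, dotProduct_smul,
      dotProduct_smul, h1u, h1v]
    simp only [smul_eq_mul]
    rw [huu]
    field_simp
    ring

end step

theorem t : TaskL2 := by
  intro ι r j j' F hr hj hj' _ hG hG' hF
  have hP : (GM r F).PosDef := by
    have h := hG.submatrix (e := fun i : r => (⟨i, mem_insert_of_mem i.2⟩ : (insert j r : Finset ι)))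
      (fun a b hab => by
        simp only [Subtype.mk.injEq] at hab
        exact Subtype.ext hab)
    exact h
  obtain ⟨hS, -, -⟩ := consts hr hP
  obtain ⟨C, hC⟩ := scal hr hP
  have hn : (0 : ℝ) < r.card := by exact_mod_cast hr.card_pos
  set S := ∑ k, uu r F k with hSdef
  set q := (1 + ∑ k ∈ r, F k) / (r.card : ℝ) with hq
  have hdet : 0 < (GM r F).det := hP.det_pos
  have key : ∀ i : ι, ∀ hi : i ∉ r, (GM (insert i r) F).PosDef → 0 < sg r F i ∧
      kap (insert i r) F ⟨i, mem_insert_self i r⟩ =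
        Real.sqrt (GM r F).det * (S / 2) * ((q - F i) / Real.sqrt (sg r F i)) := by
    intro i hi hGi
    have h1 := det_eq hP i hi
    have h2 : 0 < (GM (insert i r) F).det := hGi.det_pos
    have h3 : 0 < sg r F i := by
      rw [h1] at h2
      exact pos_of_mul_pos_right h2 hdet.le
    refine ⟨h3, ?_⟩
    have h4 := kap_eq hP i hi hGi
    rw [(hC i hi).1] at h4
    have h5 : ((GM (insert i r) F)⁻¹ *ᵥ (fun _ => (1 : ℝ))) ⟨i, mem_insert_self i r⟩ =
        S / 2 * (q - F i) / sg r F i := by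
      rw [eq_div_iff h3.ne', mul_comm]
      exact h4
    unfold kap
    rw [h1, Real.sqrt_mul hdet.le, h5]
    have h6 : Real.sqrt (sg r F i) ≠ 0 := (Real.sqrt_pos.2 h3).ne'
    have h7 : sg r F i = Real.sqrt (sg r F i) * Real.sqrt (sg r F i) :=
      (Real.mul_self_sqrt h3.le).symm
    generalize Real.sqrt (sg r F i) = w at h6 h7 ⊢
    rw [h7]
    field_simp
  obtain ⟨hs, hk⟩ := key j hj hG
  obtain ⟨hs', hk'⟩ := key j' hj' hG'
  rw [hk, hk', ← mul_add]
  have hpos : 0 < Real.sqrt (GM r F).det * (S / 2) := mul_pos (Real.sqrt_pos.2 hdet) (by linarith)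
  refine mul_pos hpos ?_
  have hτ : 0 < (q - F j) + (q - F j') := by
    have h8 : 2 / (r.card : ℝ) * (1 + ∑ i ∈ r, F i) = 2 * q := by
      rw [hq]; ring
    rw [h8] at hF
    linarith
  -- the elementary inequality
  have elem : ∀ a b x y : ℝ, 0 < x → 0 < y → x = C - S / 4 * a ^ 2 → y = C - S / 4 * b ^ 2 →
      0 < a + b → b ≤ a → 0 < a / Real.sqrt x + b / Real.sqrt y := by
    intro a b x y hx hy hxa hyb hab hba
    have ha : 0 < a := by linarith
    have hsx : 0 < Real.sqrt x := Real.sqrt_pos.2 hx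
    have hsy : 0 < Real.sqrt y := Real.sqrt_pos.2 hy
    rcases le_or_gt 0 b with hb | hb
    · have h9 : 0 < a / Real.sqrt x := div_pos ha hsx
      have h10 : 0 ≤ b / Real.sqrt y := div_nonneg hb hsy.le
      linarith
    · have h11 : b ^ 2 ≤ a ^ 2 := by
        have : -b ≤ a := by linarith
        nlinarith
      have h12 : x ≤ y := by
        rw [hxa, hyb]
        have : S / 4 * b ^ 2 ≤ S / 4 * a ^ 2 := mul_le_mul_of_nonneg_left h11 (by linarith)
        linarith
      have h13 : Real.sqrt x ≤ Real.sqrt y := Real.sqrt_le_sqrt h12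
      have h14 : -b / Real.sqrt y < a / Real.sqrt x := by
        calc -b / Real.sqrt y ≤ -b / Real.sqrt x :=
              div_le_div_of_nonneg_left (by linarith) hsx h13
          _ < a / Real.sqrt x := by
              apply div_lt_div_of_pos_right _ hsx
              linarith
      rw [neg_div] at h14
      linarith
  rcases le_total (q - F j') (q - F j) with h | h
  · exact elem _ _ _ _ hs hs' (hC j hj).2 (hC j' hj').2 hτ h
  · have := elem _ _ _ _ hs' hs (hC j' hj').2 (hC j hj).2 (by linarith) h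
    linarith

end Pool.Agent.H154R5.ESL2
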