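import Pool.Agent.H242R3.ES.StmtsN

/-!
# Project H242-ES, task N12: the maximum principle
-/

set_option autoImplicit false
set_option maxHeartbeats 4000000
set_option synthInstance.maxHeartbeats 400000

open Finset
open scoped Classical

namespace Pool.Agent.H154R5.ESN12

open Pool.Agent.H242R3.ES

/-- the Lorentz form as a linear functional of the first variable -/
noncomputable def Bl {D : ℕ} (y : LV D) : LV D →ₗ[ℝ] ℝ where
  toFun x := B x y
  map_add' x x' := by
    simp only [B, Pi.add_apply, add_mul, Finset.sum_add_distrib]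
    ring
  map_smul' r x := by
    simp only [B, Pi.smul_apply, smul_eq_mul, RingHom.id_apply, mul_assoc, ← Finset.mul_sum]
    ring

lemma Bl_apply {D : ℕ} (x y : LV D) : Bl y x = B x y := rfl

lemma pair_ne_univ {m : ℕ} (hm : 2 ≤ m) {ι : Type} [Fintype ι] {X : ι → LV (m + 1)}
    (h : NC (m + 1) X) (j o : ι) : ({j, o} : Set ι) ≠ Set.univ := by
  intro hu
  have h1 : Set.range X = ({X j, X o} : Set (LV (m + 1))) := by
    rw [← Set.image_univ, ← hu, Set.image_pair]
  have h2 := h.span
  rw [h1] at h2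
  have h3 : Module.finrank ℝ (Submodule.span ℝ ({X j, X o} : Set (LV (m + 1)))) ≤ 2 := by
    have h4 := finrank_span_le_card (R := ℝ) ({X j, X o} : Set (LV (m + 1)))
    refine h4.trans ?_
    rw [Set.toFinset_card]
    have h5 : Fintype.card ({X j, X o} : Set (LV (m + 1))) ≤ 2 := by
      rw [← Nat.card_eq_fintype_card, Nat.card_coe_set_eq]
      refine (Set.ncard_insert_le _ _).trans ?_
      rw [Set.ncard_singleton]
    exact h5
  rw [h2, finrank_top] at h3
  have h6 : Module.finrank ℝ (LV (m + 1)) = m + 2 := by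
    rw [Module.finrank_fintype_fun_eq_card]
    simp
  omega

lemma oneSided (hSM : StepMin) (hG : GenV) {m : ℕ} (hm : 2 ≤ m) {ι : Type} [Fintype ι]
    {X X' : ι → LV (m + 1)} (h : NC (m + 1) X) (h' : NC (m + 1) X')
    (hF : ∀ S, Face X S ↔ Face X' S)
    (hB : ∀ S, Face X S → S ≠ Set.univ → ∀ i ∈ S, ∀ j ∈ S, B (X i) (X j) = B (X' i) (X' j))
    (o k : ι) : B (X' k) (X' o) ≤ B (X k) (X o) := by
  by_cases hk : k = o
  · subst hk
    rw [h.null, h'.null]
  obtain ⟨j0, hj0, hmin⟩ := Finset.exists_min_image (Finset.univ.filter (fun i : ι => i ≠ o))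
    (fun i => B (X' i) (X' o) / B (X i) (X o)) ⟨k, by simpa using hk⟩
  have hj0o : j0 ≠ o := by simpa using hj0
  set c := B (X' j0) (X' o) / B (X j0) (X o) with hc
  have hall : ∀ i, B (X' i) (X' o) ≤ c * B (X i) (X o) := by
    intro i
    by_cases hi : i = o
    · subst hi
      rw [h.null, h'.null, mul_zero]
    · have h1 := hmin i (by simpa using hi)
      have h2 := h.neg i o hi
      rwa [le_div_iff_of_neg h2] at h1
  have hj0c : B (X' j0) (X' o) = c * B (X j0) (X o) := by
    rw [hc, div_mul_cancel₀ _ (h.neg j0 o hj0o).ne]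
  obtain ⟨l, hl1, hl2⟩ := h.vert o
  have hlo : l (X o) = 0 := (hl2 o).1 rfl
  have hlpos : ∀ i, i ≠ o → 0 < l (X i) := by
    intro i hi
    refine lt_of_le_of_ne (hl1 i) (fun he => hi ?_)
    exact (hl2 i).2 he.symm
  -- positive functional
  let τ : LV (m + 1) →ₗ[ℝ] ℝ := -(Bl (X j0) + Bl (X o))
  have hτ : ∀ i, 0 < τ (X i) := by
    intro i
    have e : τ (X i) = -(B (X i) (X j0) + B (X i) (X o)) := rfl
    rw [e]
    by_cases hi : i = o
    · subst hi
      have := h.neg i j0 (Ne.symm hj0o)
      rw [h.null]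
      linarith
    · have h2 := h.neg i o hi
      by_cases hi2 : i = j0
      · subst hi2
        rw [h.null]
        linarith
      · have := h.neg i j0 hi2
        linarith
  set Ms := Finset.univ.filter (fun i : ι => i ≠ o ∧ B (X' i) (X' o) = c * B (X i) (X o)) with hMs
  have hMne : Ms.Nonempty := ⟨j0, by simp [hMs, hj0o, hj0c]⟩
  obtain ⟨j, hjM, hjmin⟩ := Finset.exists_min_image Ms (fun i => l (X i) / τ (X i)) hMne
  by_cases hcom : ∃ i ∈ Ms, Com X i o
  · obtain ⟨i, hi, S, hS1, hS2, hiS, hoS⟩ := hcom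
    rw [hMs, Finset.mem_filter] at hi
    have e1 := hB S hS1 hS2 i hiS o hoS
    have e2 := hi.2.2
    have e3 := h.neg i o hi.2.1
    have hc1 : c = 1 := by
      rw [← e1] at e2
      have : (c - 1) * B (X i) (X o) = 0 := by linear_combination -e2
      rcases mul_eq_zero.1 this with h0 | h0
      · linarith
      · exact absurd h0 e3.ne
    have := hall k
    rwa [hc1, one_mul] at this
  · exfalso
    rw [hMs, Finset.mem_filter] at hjM
    obtain ⟨-, hjo, hjc⟩ := hjM
    have hjMs : j ∈ Ms := by rw [hMs, Finset.mem_filter]; exact ⟨Finset.mem_univ _, hjo, hjc⟩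
    have hncom : ¬ Com X j o := fun hh => hcom ⟨j, hjMs, hh⟩
    have hstep := hSM m hm ι X X' h h' hF hB j o c hncom hjc hall
    have hnb : ∀ i, i ≠ j → Face X {j, i} → i ∈ Ms := by
      intro i hij hfi
      rw [hMs, Finset.mem_filter]
      refine ⟨Finset.mem_univ _, ?_, hstep i hij hfi⟩
      rintro rfl
      exact hncom ⟨{j, i}, hfi, pair_ne_univ hm h j i, by simp, by simp⟩
    have hfu : Face X Set.univ := ⟨0, fun i => by simp, fun i => by simp⟩
    obtain ⟨y, a, ha1, ha2, ha3⟩ := hG ι (LV (m + 1)) X h.vert j Set.univ hfu (Set.mem_univ _) o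
      (Set.mem_univ _)
    -- the functional
    set ρ := l (X j) / τ (X j) with hρ
    have hρpos : 0 < ρ := div_pos (hlpos j hjo) (hτ j)
    let f : LV (m + 1) →ₗ[ℝ] ℝ := l - ρ • τ
    have hfe : ∀ x, f x = l x - ρ * τ x := fun x => rfl
    have hfj : f (X j) = 0 := by
      rw [hfe, hρ, div_mul_cancel₀ _ (hτ j).ne', sub_self]
    have hfo : f (X o) < 0 := by
      rw [hfe, hlo]
      have := mul_pos hρpos (hτ o)
      linarith
    have hsum : f (X o) = ∑ i, a i * f (X i) := by
      have := congrArg f ha3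
      rw [this, map_add, map_smul, hfj, smul_zero, zero_add, map_sum]
      simp
    have hex : ∃ i, a i * f (X i) < 0 := by
      by_contra hcon
      push Not at hcon
      have : 0 ≤ ∑ i, a i * f (X i) := Finset.sum_nonneg (fun i _ => hcon i)
      rw [← hsum] at this
      linarith
    obtain ⟨i, hi⟩ := hex
    have hai : a i ≠ 0 := by
      intro h0
      rw [h0, zero_mul] at hi
      exact lt_irrefl _ hi
    have hapos : 0 < a i := lt_of_le_of_ne (ha1 i) (Ne.symm hai)
    have hfi : f (X i) < 0 := by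
      by_contra hcon
      push Not at hcon
      have := mul_nonneg hapos.le hcon
      linarith
    obtain ⟨-, hij, hface⟩ := ha2 i hai
    have hiM := hnb i hij hface
    have hle := hjmin i hiM
    have hle' : ρ ≤ l (X i) / τ (X i) := hle
    rw [le_div_iff₀ (hτ i)] at hle'
    rw [hfe] at hfi
    linarith

theorem t : TaskN12 := by
  intro hSM hG m hm ι _ X X' h h' hF hB i j
  apply le_antisymm
  · refine oneSided hSM hG hm h' h (fun S => (hF S).symm) ?_ j i
    intro S hS1 hS2 a ha b hb
    exact (hB S ((hF S).2 hS1) hS2 a ha b hb).symm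
  · exact oneSided hSM hG hm h h' hF hB j i

end Pool.Agent.H154R5.ESN12

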