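import Pool.Agent.H181R5.NLT.Stmts

/-!
# Project H181-NLT, task TT: time layers
-/

set_option autoImplicit false

namespace Pool.Agent.H154R5.NLTT

open Finset Relation Pool.Agent.H181R5.NLH Pool.Agent.H181R5.NLT

section Red

variable {X Y Q : Type}

/-- substitute constants and variables for the input bits of a program -/
def redc (P : BP X Q) (lit : X → Bool ⊕ Y) (d : Y) : BP Y Q where
  start := P.start
  var := fun q => match lit (P.var q) with
    | Sum.inl _ => d
    | Sum.inr y => y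
  next := fun q β => match lit (P.var q) with
    | Sum.inl b => P.next q b
    | Sum.inr _ => P.next q β
  acc := P.acc

theorem redc_step (P : BP X Q) (lit : X → Bool ⊕ Y) (d : Y) (x : Y → Bool) :
    (redc P lit d).step x = P.step (fun e => val x (lit e)) := by
  funext q
  unfold BP.step redc
  dsimp only
  cases hl : lit (P.var q) with
  | inl b => rfl
  | inr v => rfl

theorem redc_accepts (P : BP X Q) (lit : X → Bool ⊕ Y) (d : Y) (x : Y → Bool) :
    (redc P lit d).Accepts x ↔ P.Accepts (fun e => val x (lit e)) := by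
  unfold BP.Accepts
  rw [redc_step]
  rfl

end Red

theorem lw_card {V : Type} [Fintype V] (x : V × V → Bool) (s : V) : ∀ k : ℕ,
    (∃ j ≤ k, ∀ b c, LW x j s b → x (b, c) = true → LW x j s c) ∨
      ∃ A : Finset V, k + 1 ≤ A.card ∧ ∀ t, t ∈ A ↔ LW x k s t := by
  classical
  intro k
  induction k with
  | zero =>
    right
    refine ⟨{s}, by simp, fun t => ?_⟩
    rw [mem_singleton]
    exact ⟨fun h => h.symm, fun h => Eq.symm h⟩
  | succ k ih =>
    rcases ih with ⟨j, hj, h⟩ | ⟨A, hA, hAt⟩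
    · exact Or.inl ⟨j, by omega, h⟩
    · by_cases hc : ∀ b c, LW x k s b → x (b, c) = true → LW x k s c
      · exact Or.inl ⟨k, by omega, hc⟩
      · right
        push Not at hc
        obtain ⟨b, c, hb, hbc, hnc⟩ := hc
        refine ⟨univ.filter (fun t => LW x (k + 1) s t), ?_, fun t => by
          rw [mem_filter]; exact ⟨fun h => h.2, fun h => ⟨mem_univ _, h⟩⟩⟩
        have hlt : A.card < (univ.filter (fun t => LW x (k + 1) s t)).card := by
          apply card_lt_card
          rw [ssubset_iff_of_subset]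
          · refine ⟨c, ?_, ?_⟩
            · rw [mem_filter]
              exact ⟨mem_univ _, ⟨b, hb, Or.inr hbc⟩⟩
            · rw [hAt]
              exact hnc
          · intro t ht
            rw [hAt] at ht
            rw [mem_filter]
            exact ⟨mem_univ _, ht.succ⟩
        omega

theorem lw_of_reach' {r : ℕ} {x : Fin r × Fin r → Bool} {s t : Fin r} (h : Reach x s t) :
    LW x r s t := by
  rcases lw_card x s r with ⟨j, hj, hc⟩ | ⟨A, hA, _⟩
  · have : LW x j s t := by
      induction h with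
      | refl => exact LW.mono (k := 0) rfl (Nat.zero_le _)
      | @tail b c _ hbc ih => exact hc b c ih hbc
    exact this.mono hj
  · have := card_le_univ A
    rw [Fintype.card_fin] at this
    omega

/-- the literal of an arc of the big digraph -/
def lit {r m : ℕ} (hr : 0 < r) (e : Fin m × Fin m) : Bool ⊕ (Fin r × Fin r) :=
  if (e.2 : ℕ) / r = (e.1 : ℕ) / r + 1 then
    (if (e.1 : ℕ) % r = (e.2 : ℕ) % r then Sum.inl true
      else Sum.inr (⟨(e.1 : ℕ) % r, Nat.mod_lt _ hr⟩, ⟨(e.2 : ℕ) % r, Nat.mod_lt _ hr⟩))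
  else Sum.inl false

theorem val_lit {r m : ℕ} (hr : 0 < r) (x : Fin r × Fin r → Bool) (e : Fin m × Fin m) :
    val x (lit hr e) = true ↔ (e.2 : ℕ) / r = (e.1 : ℕ) / r + 1 ∧
      ((⟨(e.1 : ℕ) % r, Nat.mod_lt _ hr⟩ : Fin r) = ⟨(e.2 : ℕ) % r, Nat.mod_lt _ hr⟩ ∨
        x (⟨(e.1 : ℕ) % r, Nat.mod_lt _ hr⟩, ⟨(e.2 : ℕ) % r, Nat.mod_lt _ hr⟩) = true) := by
  unfold lit
  split_ifs with h1 h2
  · simp [Pool.Agent.H181R5.NLH.val, h1, h2]
  · simp [Pool.Agent.H181R5.NLH.val, h1, h2]
  · simp [Pool.Agent.H181R5.NLH.val, h1]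

theorem bound {r m j : ℕ} (hm : r * (r + 1) ≤ m) (hj : j ≤ r) (v : Fin r) :
    j * r + (v : ℕ) < m := by
  have h1 : j * r ≤ r * r := Nat.mul_le_mul_right r hj
  have h2 := v.2
  have h3 : r * (r + 1) = r * r + r := by ring
  omega

theorem taskTT : TaskTT := by
  intro r m N hm he s t
  have hr : 0 < r := Nat.lt_of_le_of_lt (Nat.zero_le _) s.2
  obtain ⟨Q, hQ, P, hcard, hP⟩ := he ⟨0 * r + s, bound hm (Nat.zero_le r) s⟩
    ⟨r * r + t, bound hm le_rfl t⟩
  refine ⟨Q, hQ, redc P (lit hr) (s, t), hcard, fun x _ => ?_⟩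
  rw [redc_accepts, hP]
  · have hmod : ∀ (j : ℕ) (v : Fin r), (j * r + (v : ℕ)) % r = v := by
      intro j v
      rw [Nat.mul_comm, Nat.mul_add_mod, Nat.mod_eq_of_lt v.2]
    have hdiv : ∀ (j : ℕ) (v : Fin r), (j * r + (v : ℕ)) / r = j := by
      intro j v
      rw [Nat.mul_comm, Nat.mul_add_div hr, Nat.div_eq_of_lt v.2, Nat.add_zero]
    constructor
    · intro h
      have key : ∀ b : Fin m, Reach (fun e => val x (lit hr e))
          ⟨0 * r + s, bound hm (Nat.zero_le r) s⟩ b →
          Reach x s ⟨(b : ℕ) % r, Nat.mod_lt _ hr⟩ := by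
        intro b hb
        induction hb with
        | refl =>
          have e1 : (⟨(0 * r + (s : ℕ)) % r, Nat.mod_lt _ hr⟩ : Fin r) = s := Fin.ext (hmod 0 s)
          show Reach x s (⟨(0 * r + (s : ℕ)) % r, Nat.mod_lt _ hr⟩ : Fin r)
          rw [e1]
          exact ReflTransGen.refl
        | @tail b c _ hbc ih =>
          obtain ⟨_, h2 | h2⟩ := (val_lit hr x (b, c)).1 hbc
          · rw [← h2]
            exact ih
          · exact ReflTransGen.tail ih h2
      have h1 := key _ h
      have e2 : (⟨(r * r + (t : ℕ)) % r, Nat.mod_lt _ hr⟩ : Fin r) = t := Fin.ext (hmod r t)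
      have h2 : Reach x s (⟨(r * r + (t : ℕ)) % r, Nat.mod_lt _ hr⟩ : Fin r) := h1
      rw [e2] at h2
      exact h2
    · intro h
      obtain ⟨a, ha0, har, ha⟩ := (lw_iff r s t).1 (lw_of_reach' h)
      have key : ∀ (j : ℕ) (hj : j ≤ r), Reach (fun e => val x (lit hr e))
          ⟨0 * r + s, bound hm (Nat.zero_le r) s⟩ (⟨j * r + a j, bound hm hj (a j)⟩ : Fin m) := by
        intro j
        induction j with
        | zero =>
          intro hj
          have e1 : (⟨0 * r + a 0, bound hm hj (a 0)⟩ : Fin m) =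
              ⟨0 * r + s, bound hm (Nat.zero_le r) s⟩ := Fin.ext (by simp [ha0])
          rw [e1]
          exact ReflTransGen.refl
        | succ j ih =>
          intro hj
          refine ReflTransGen.tail (ih (by omega)) ?_
          rw [val_lit]
          have f1 : (⟨(j * r + (a j : ℕ)) % r, Nat.mod_lt _ hr⟩ : Fin r) = a j :=
            Fin.ext (hmod j (a j))
          have f2 : (⟨((j + 1) * r + (a (j + 1) : ℕ)) % r, Nat.mod_lt _ hr⟩ : Fin r) = a (j + 1) :=
            Fin.ext (hmod (j + 1) (a (j + 1)))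
          refine ⟨?_, ?_⟩
          · show ((j + 1) * r + (a (j + 1) : ℕ)) / r = (j * r + (a j : ℕ)) / r + 1
            rw [hdiv, hdiv]
          · show (⟨(j * r + (a j : ℕ)) % r, Nat.mod_lt _ hr⟩ : Fin r) =
              ⟨((j + 1) * r + (a (j + 1) : ℕ)) % r, Nat.mod_lt _ hr⟩ ∨
              x (⟨(j * r + (a j : ℕ)) % r, Nat.mod_lt _ hr⟩,
                ⟨((j + 1) * r + (a (j + 1) : ℕ)) % r, Nat.mod_lt _ hr⟩) = true
            rw [f1, f2]
            exact ha j (by omega)
      have h1 := key r le_rfl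
      have e3 : (⟨r * r + a r, bound hm le_rfl (a r)⟩ : Fin m) =
          ⟨r * r + t, bound hm le_rfl t⟩ := Fin.ext (by simp [har])
      rw [e3] at h1
      exact h1
  · intro e hx
    obtain ⟨h1, _⟩ := (val_lit hr x e).1 hx
    rw [mem_filter]
    refine ⟨mem_univ _, ?_⟩
    by_contra hcon
    rw [not_lt] at hcon
    have h2 : (e.2 : ℕ) / r ≤ (e.1 : ℕ) / r := Nat.div_le_div_right hcon
    omega

end Pool.Agent.H154R5.NLTT

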