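import Mathlib
import Pool.Agent.H197R3.SF.Stmts

/-!
Task BOHR of project H197-SF: positivity of the Laurent matrix, by discrete means along a generic
arithmetic progression.
-/

set_option autoImplicit false

namespace Pool.Agent.H154R5.SFBohr

open Filter Topology Finset
open scoped Matrix ComplexConjugate
open Pool.Agent.H197R3.SF

/-! ### the characters -/

lemma ch_add (ω s t : ℝ) : ch ω (s + t) = ch ω s * ch ω t := by
  unfold ch
  rw [← Complex.exp_add]
  congr 1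
  push_cast
  ring

lemma ch_zero (ω : ℝ) : ch ω 0 = 1 := by
  unfold ch
  simp

lemma norm_ch (ω t : ℝ) : ‖ch ω t‖ = 1 := by
  unfold ch
  rw [Complex.norm_exp]
  simp

lemma ch_nat (θ t : ℝ) (k : ℕ) : ch (k * θ) t = ch θ t ^ k := by
  unfold ch
  rw [← Complex.exp_nat_mul]
  congr 1
  push_cast
  ring

lemma conj_ch (ω t : ℝ) : conj (ch ω t) = ch ω (-t) := by
  unfold ch
  rw [← Complex.exp_conj]
  congr 1
  simp

/-! ### discrete means -/

/-- the mean over the first `N` multiples of `θ` -/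
noncomputable def M (θ : ℝ) (N : ℕ) (f : ℝ → ℂ) : ℂ := (N : ℂ)⁻¹ * ∑ k ∈ range N, f (k * θ)

lemma M_sum (θ : ℝ) (N : ℕ) {κ : Type*} (A : Finset κ) (g : κ → ℝ → ℂ) :
    M θ N (fun ω => ∑ x ∈ A, g x ω) = ∑ x ∈ A, M θ N (g x) := by
  unfold M
  rw [Finset.sum_comm, Finset.mul_sum]

lemma M_mul (θ : ℝ) (N : ℕ) (c : ℂ) (g : ℝ → ℂ) :
    M θ N (fun ω => c * g ω) = c * M θ N g := by
  unfold M
  rw [← Finset.mul_sum]
  ring

lemma M_sub (θ : ℝ) (N : ℕ) (f g : ℝ → ℂ) :
    M θ N (fun ω => f ω - g ω) = M θ N f - M θ N g := by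
  unfold M
  rw [Finset.sum_sub_distrib]
  ring

lemma M_re_nonneg (θ : ℝ) (N : ℕ) (f : ℝ → ℂ) (hf : ∀ ω, 0 ≤ (f ω).re) : 0 ≤ (M θ N f).re := by
  unfold M
  have h1 : ((N : ℂ)⁻¹) = (((N : ℝ)⁻¹ : ℝ) : ℂ) := by push_cast; rfl
  rw [h1, Complex.re_ofReal_mul, Complex.re_sum]
  exact mul_nonneg (by positivity) (Finset.sum_nonneg fun k _ => hf _)

lemma norm_M_ch (θ : ℝ) (N : ℕ) (t : ℝ) : ‖M θ N (fun ω => ch ω t)‖ ≤ 1 := by
  unfold M
  rw [norm_mul, norm_inv, Complex.norm_natCast]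
  have h1 : ‖∑ k ∈ range N, ch (k * θ) t‖ ≤ N := by
    calc ‖∑ k ∈ range N, ch (k * θ) t‖ ≤ ∑ k ∈ range N, ‖ch (k * θ) t‖ := norm_sum_le _ _
      _ = N := by simp [norm_ch]
  rcases Nat.eq_zero_or_pos N with h | h
  · subst h; simp
  · have hN : (0 : ℝ) < N := by exact_mod_cast h
    rw [inv_mul_le_iff₀ hN, mul_one]
    exact h1

lemma tendsto_M_ch (θ t : ℝ) (h : t = 0 ∨ ch θ t ≠ 1) :
    Tendsto (fun N => M θ N (fun ω => ch ω t)) atTop (𝓝 (if t = 0 then 1 else 0)) := by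
  by_cases ht : t = 0
  · rw [if_pos ht]
    refine (tendsto_const_nhds (x := (1 : ℂ))).congr' ?_
    filter_upwards [eventually_gt_atTop 0] with N hN
    unfold M
    subst ht
    simp only [ch_zero, Finset.sum_const, Finset.card_range, nsmul_eq_mul, mul_one]
    have : (N : ℂ) ≠ 0 := by exact_mod_cast hN.ne'
    field_simp
  · rw [if_neg ht]
    have hz : ch θ t ≠ 1 := h.resolve_left ht
    have hz' : ch θ t - 1 ≠ 0 := sub_ne_zero.2 hz
    have h1 : ∀ N : ℕ, ‖M θ N (fun ω => ch ω t)‖ ≤ (N : ℝ)⁻¹ * (2 / ‖ch θ t - 1‖) := by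
      intro N
      unfold M
      rw [norm_mul, norm_inv, Complex.norm_natCast]
      refine mul_le_mul_of_nonneg_left ?_ (by positivity)
      have h2 : ∑ k ∈ range N, ch (k * θ) t = (ch θ t ^ N - 1) / (ch θ t - 1) := by
        rw [← geom_sum_eq hz]
        exact Finset.sum_congr rfl fun k _ => ch_nat θ t k
      rw [h2, norm_div]
      refine div_le_div_of_nonneg_right ?_ (norm_nonneg _)
      calc ‖ch θ t ^ N - 1‖ ≤ ‖ch θ t ^ N‖ + ‖(1 : ℂ)‖ := norm_sub_le _ _
        _ = 2 := by rw [norm_pow, norm_ch, one_pow, norm_one]; norm_num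
    refine squeeze_zero_norm h1 ?_
    have h3 : Tendsto (fun N : ℕ => (N : ℝ)⁻¹) atTop (𝓝 0) := tendsto_inv_atTop_nhds_zero_nat
    simpa using h3.mul_const (2 / ‖ch θ t - 1‖)

lemma tendsto_M_tsum (θ b : ℝ) (a : ℝ → ℂ) (ha : Summable fun τ => ‖a τ‖)
    (h : ∀ τ, a τ ≠ 0 → τ + b = 0 ∨ ch θ (τ + b) ≠ 1) :
    Tendsto (fun N => M θ N (fun ω => (∑' τ : ℝ, a τ * ch ω τ) * ch ω b)) atTop (𝓝 (a (-b))) := by
  have hs : ∀ ω t : ℝ, Summable fun τ => a τ * ch ω (τ + t) := by
    intro ω t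
    refine Summable.of_norm ?_
    refine ha.congr fun τ => ?_
    rw [norm_mul, norm_ch, mul_one]
  have h1 : ∀ N, M θ N (fun ω => (∑' τ : ℝ, a τ * ch ω τ) * ch ω b) =
      ∑' τ : ℝ, a τ * M θ N (fun ω => ch ω (τ + b)) := by
    intro N
    unfold M
    have h2 : ∀ k : ℕ, (∑' τ : ℝ, a τ * ch (k * θ) τ) * ch (k * θ) b =
        ∑' τ : ℝ, a τ * ch (k * θ) (τ + b) := by
      intro k
      rw [← tsum_mul_right]
      refine tsum_congr fun τ => ?_
      rw [ch_add, mul_assoc]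
    rw [Finset.sum_congr rfl fun k _ => h2 k, ← Summable.tsum_finsetSum fun k _ => hs _ _,
      ← tsum_mul_left]
    refine tsum_congr fun τ => ?_
    rw [← Finset.mul_sum]
    ring
  have h3 : a (-b) = ∑' τ : ℝ, a τ * (if τ + b = 0 then 1 else 0) := by
    rw [tsum_eq_single (-b)]
    · simp
    · intro τ hτ
      rw [if_neg (fun h' => hτ (by linarith)), mul_zero]
  rw [h3]
  simp only [h1]
  refine tendsto_tsum_of_dominated_convergence ha ?_ ?_
  · intro τ
    by_cases h0 : a τ = 0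
    · simp only [h0, zero_mul]
      exact tendsto_const_nhds
    · exact (tendsto_M_ch θ (τ + b) (h τ h0)).const_mul _
  · refine Eventually.of_forall fun N τ => ?_
    rw [norm_mul]
    calc ‖a τ‖ * _ ≤ ‖a τ‖ * 1 := mul_le_mul_of_nonneg_left (norm_M_ch θ N _) (norm_nonneg _)
      _ = ‖a τ‖ := mul_one _

/-- a generic step -/
lemma exists_step (A : Set ℝ) (hA : A.Countable) : ∃ θ : ℝ, ∀ t ∈ A, t = 0 ∨ ch θ t ≠ 1 := by
  have hbad : (⋃ t ∈ A, ⋃ m : ℤ, {2 * Real.pi * m / t} : Set ℝ).Countable :=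
    hA.biUnion fun t _ => Set.countable_iUnion fun m => Set.countable_singleton _
  obtain ⟨θ, hθ⟩ := (hbad.dense_compl ℝ).nonempty
  refine ⟨θ, fun t ht => ?_⟩
  by_cases h0 : t = 0
  · exact Or.inl h0
  · refine Or.inr fun h1 => hθ ?_
    unfold ch at h1
    rw [Complex.exp_eq_one_iff] at h1
    obtain ⟨m, hm⟩ := h1
    simp only [Set.mem_iUnion, Set.mem_singleton_iff]
    refine ⟨t, ht, -m, ?_⟩
    have h2 : ((θ : ℂ) * t) * Complex.I = ((2 * Real.pi * (-m) : ℝ) : ℂ) * Complex.I := by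
      push_cast
      have h3 : (θ : ℂ) * t * Complex.I = -(m * (2 * Real.pi * Complex.I)) := by
        rw [← hm]; ring
      rw [h3]
      ring
    have h4 := mul_right_cancel₀ Complex.I_ne_zero h2
    have h5 : θ * t = 2 * Real.pi * (-m) := by exact_mod_cast h4
    push_cast
    rw [eq_div_iff h0, h5]

theorem taskBohr : TaskBohr := by
  intro n c0 C hC hF S w
  -- the generic step
  let A : Set ℝ := ⋃ i : Fin n, ⋃ j : Fin n, ⋃ s ∈ S, ⋃ t ∈ S,
    ((fun τ => τ + (s - t)) '' (Function.support fun τ => C τ i j)) ∪ {s - t}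
  have hA : A.Countable := by
    refine Set.countable_iUnion fun i => Set.countable_iUnion fun j => ?_
    refine S.countable_toSet.biUnion fun s _ => S.countable_toSet.biUnion fun t _ => ?_
    refine Set.Countable.union ?_ (Set.countable_singleton _)
    refine Set.Countable.image ?_ _
    have h1 := (hC i j).countable_support
    refine h1.mono ?_
    intro τ hτ
    simpa using hτ
  obtain ⟨θ, hθ⟩ := exists_step A hA
  -- the test vector
  let u : ℝ → Fin n → ℂ := fun ω i => ∑ s ∈ S, w s i * ch ω s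
  let Fm : ℝ → Fin n → Fin n → ℂ := fun ω i j => ∑' t : ℝ, C t i j * ch ω t
  let f : ℝ → ℂ := fun ω => (∑ t ∈ S, ∑ s ∈ S, ∑ i, ∑ j,
      (conj (w t i) * w s j) * (Fm ω i j * ch ω (s - t))) -
      (c0 : ℂ) * ∑ t ∈ S, ∑ s ∈ S, ∑ i, (conj (w t i) * w s i) * ch ω (s - t)
  have hchst : ∀ ω s t : ℝ, ch ω (s - t) = conj (ch ω t) * ch ω s := by
    intro ω s t
    rw [conj_ch, sub_eq_add_neg, ch_add, mul_comm]
  have hf : ∀ ω, f ω = (∑ i, ∑ j, conj (u ω i) * (Fm ω i j * u ω j)) -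
      (c0 : ℂ) * ∑ i, conj (u ω i) * u ω i := by
    intro ω
    have e1 : ∀ i j : Fin n, conj (u ω i) * (Fm ω i j * u ω j) =
        ∑ t ∈ S, ∑ s ∈ S, (conj (w t i) * w s j) * (Fm ω i j * ch ω (s - t)) := by
      intro i j
      show conj (∑ s ∈ S, w s i * ch ω s) * (Fm ω i j * ∑ s ∈ S, w s j * ch ω s) = _
      rw [map_sum, Finset.sum_mul]
      refine Finset.sum_congr rfl fun t _ => ?_
      rw [Finset.mul_sum, Finset.mul_sum]
      refine Finset.sum_congr rfl fun s _ => ?_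
      rw [map_mul, hchst]
      ring
    have e2 : ∀ i : Fin n, conj (u ω i) * u ω i =
        ∑ t ∈ S, ∑ s ∈ S, (conj (w t i) * w s i) * ch ω (s - t) := by
      intro i
      show conj (∑ s ∈ S, w s i * ch ω s) * (∑ s ∈ S, w s i * ch ω s) = _
      rw [map_sum, Finset.sum_mul]
      refine Finset.sum_congr rfl fun t _ => ?_
      rw [Finset.mul_sum]
      refine Finset.sum_congr rfl fun s _ => ?_
      rw [map_mul, hchst]
      ring
    have e3 : (∑ i, ∑ j, conj (u ω i) * (Fm ω i j * u ω j)) = ∑ t ∈ S, ∑ s ∈ S, ∑ i, ∑ j,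
        (conj (w t i) * w s j) * (Fm ω i j * ch ω (s - t)) := by
      rw [Finset.sum_congr rfl fun i _ => Finset.sum_congr rfl fun j _ => e1 i j]
      have e4 : ∀ i : Fin n, (∑ j, ∑ t ∈ S, ∑ s ∈ S,
          (conj (w t i) * w s j) * (Fm ω i j * ch ω (s - t))) = ∑ t ∈ S, ∑ s ∈ S, ∑ j,
          (conj (w t i) * w s j) * (Fm ω i j * ch ω (s - t)) := by
        intro i
        rw [Finset.sum_comm]
        exact Finset.sum_congr rfl fun t _ => Finset.sum_comm
      rw [Finset.sum_congr rfl fun i _ => e4 i, Finset.sum_comm]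
      exact Finset.sum_congr rfl fun t _ => Finset.sum_comm
    have e5 : (∑ i, conj (u ω i) * u ω i) =
        ∑ t ∈ S, ∑ s ∈ S, ∑ i, (conj (w t i) * w s i) * ch ω (s - t) := by
      rw [Finset.sum_congr rfl fun i _ => e2 i, Finset.sum_comm]
      exact Finset.sum_congr rfl fun t _ => Finset.sum_comm
    rw [e3, e5]
  have hpos : ∀ ω, 0 ≤ (f ω).re := by
    intro ω
    have h1 := hF ω (u ω)
    rw [hf ω, Complex.sub_re, Complex.re_ofReal_mul]
    have h2 : (dotProduct (star (u ω))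
        ((Matrix.of fun i j => ∑' t : ℝ, C t i j * ch ω t).mulVec (u ω))) =
        ∑ i, ∑ j, conj (u ω i) * (Fm ω i j * u ω j) := by
      show ∑ i, conj (u ω i) * (∑ j, Fm ω i j * u ω j) = _
      exact Finset.sum_congr rfl fun i _ => Finset.mul_sum _ _ _
    rw [h2] at h1
    have h3 : (∑ i, conj (u ω i) * u ω i).re = ∑ i, ‖u ω i‖ ^ 2 := by
      rw [Complex.re_sum]
      refine Finset.sum_congr rfl fun i _ => ?_
      rw [mul_comm, Complex.mul_conj, Complex.ofReal_re, Complex.normSq_eq_norm_sq]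
    rw [h3]
    linarith
  -- the limit
  have hlim : Tendsto (fun N => M θ N f) atTop (𝓝 ((∑ t ∈ S, ∑ s ∈ S, ∑ i, ∑ j,
      (conj (w t i) * w s j) * C (t - s) i j) -
      (c0 : ℂ) * ∑ t ∈ S, ∑ s ∈ S, ∑ i, (conj (w t i) * w s i) *
        (if s - t = 0 then 1 else 0))) := by
    have hM : ∀ N, M θ N f = (∑ t ∈ S, ∑ s ∈ S, ∑ i, ∑ j,
        (conj (w t i) * w s j) * M θ N (fun ω => Fm ω i j * ch ω (s - t))) -
        (c0 : ℂ) * ∑ t ∈ S, ∑ s ∈ S, ∑ i, (conj (w t i) * w s i) *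
          M θ N (fun ω => ch ω (s - t)) := by
      intro N
      show M θ N (fun ω => _ - _) = _
      rw [M_sub, M_mul]
      simp only [M_sum, M_mul]
    simp only [hM]
    refine Tendsto.sub ?_ (Tendsto.const_mul _ ?_)
    · refine tendsto_finsetSum _ fun t ht => tendsto_finsetSum _ fun s hs =>
        tendsto_finsetSum _ fun i _ => tendsto_finsetSum _ fun j _ => Tendsto.const_mul _ ?_
      have h1 := tendsto_M_tsum θ (s - t) (fun τ => C τ i j) (hC i j) (by
        intro τ hτ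
        refine hθ _ ?_
        simp only [A, Set.mem_iUnion]
        exact ⟨i, j, s, hs, t, ht, Or.inl ⟨τ, hτ, rfl⟩⟩)
      rw [neg_sub] at h1
      exact h1
    · refine tendsto_finsetSum _ fun t ht => tendsto_finsetSum _ fun s hs =>
        tendsto_finsetSum _ fun i _ => Tendsto.const_mul _ ?_
      refine tendsto_M_ch θ (s - t) (hθ _ ?_)
      simp only [A, Set.mem_iUnion]
      exact ⟨i, i, s, hs, t, ht, Or.inr rfl⟩
  have hre := ((Complex.continuous_re.tendsto _).comp hlim)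
  have hge := ge_of_tendsto' hre (fun N => M_re_nonneg θ N f hpos)
  rw [Complex.sub_re, Complex.re_ofReal_mul] at hge
  have h5 : (∑ t ∈ S, ∑ s ∈ S, ∑ i, (conj (w t i) * w s i) *
        (if s - t = 0 then (1 : ℂ) else 0)).re = ∑ s ∈ S, ∑ i, ‖w s i‖ ^ 2 := by
    rw [Complex.re_sum]
    refine Finset.sum_congr rfl fun t ht => ?_
    rw [Finset.sum_eq_single t]
    · rw [Complex.re_sum]
      refine Finset.sum_congr rfl fun i _ => ?_
      rw [sub_self, if_pos rfl, mul_one, mul_comm, Complex.mul_conj, Complex.ofReal_re,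
        Complex.normSq_eq_norm_sq]
    · intro s _ hst
      refine Finset.sum_eq_zero fun i _ => ?_
      rw [if_neg (fun h => hst (by linarith)), mul_zero]
    · intro h; exact absurd ht h
  rw [h5] at hge
  have h6 : (∑ t ∈ S, ∑ s ∈ S, ∑ i, ∑ j, (conj (w t i) * w s j) * C (t - s) i j) =
      ∑ t ∈ S, ∑ s ∈ S, ∑ i, ∑ j, conj (w t i) * (C (t - s) i j * w s j) := by
    refine Finset.sum_congr rfl fun t _ => Finset.sum_congr rfl fun s _ =>
      Finset.sum_congr rfl fun i _ => Finset.sum_congr rfl fun j _ => ?_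
    ring
  rw [h6] at hge
  linarith

end Pool.Agent.H154R5.SFBohr
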